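import Pool.Agent.K1H98.RM.Stm

/-! Piece MOM of project RM: second moment of the correlations of a random multiplicative function. -/

set_option autoImplicit false

namespace Pool.Agent.K1H38.RM

open Finset MeasureTheory ProbabilityTheory Pool.Agent.K1H98.RM

lemma ZZ_eq (a : ℕ → ℝ) (U1 U2 j : ℕ) :
    ZZ a U1 U2 j = ∑ t ∈ Ioc (U1 + j) (U2 + j) ×ˢ Icc 1 j, a t.1 * a (t.1 - t.2) := by
  rw [Finset.sum_product]
  unfold ZZ
  refine Finset.sum_nbij' (fun u => u + j + 1) (fun m => m - j - 1) ?_ ?_ ?_ ?_ ?_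
  · intro u hu
    rw [mem_Ico] at hu; rw [mem_Ioc]; omega
  · intro m hm
    rw [mem_Ioc] at hm; rw [mem_Ico]; omega
  · intro u hu
    show u + j + 1 - j - 1 = u
    omega
  · intro m hm
    rw [mem_Ioc] at hm
    show m - j - 1 + j + 1 = m
    omega
  · intro u hu
    unfold DD
    rw [Finset.mul_sum]
    refine Finset.sum_nbij' (fun n => u + j + 1 - n) (fun h => u + j + 1 - h) ?_ ?_ ?_ ?_ ?_
    · intro n hn
      rw [mem_Ioc] at hn; rw [mem_Icc]; omega
    · intro n hn
      rw [mem_Icc] at hn; rw [mem_Ioc]; omega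
    · intro n hn
      rw [mem_Ioc] at hn
      show u + j + 1 - (u + j + 1 - n) = n
      omega
    · intro n hn
      rw [mem_Icc] at hn
      show u + j + 1 - (u + j + 1 - n) = n
      omega
    · intro n hn
      rw [mem_Ioc] at hn
      have e : u + j + 1 - (u + j + 1 - n) = n := by omega
      simp only [e]

lemma prod_sd {M : Type*} [CommMonoid M] (f : ℕ → M) (A B : Finset ℕ) :
    (∏ p ∈ A, f p) * (∏ p ∈ B, f p) =
      ((∏ p ∈ A ∩ B, f p) * (∏ p ∈ A ∩ B, f p)) * ∏ p ∈ symmDiff A B, f p := by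
  have h1 := Finset.prod_inter_mul_prod_diff A B f
  have h2 := Finset.prod_inter_mul_prod_diff B A f
  have h3 : ∏ p ∈ symmDiff A B, f p = (∏ p ∈ A \ B, f p) * ∏ p ∈ B \ A, f p := by
    have hd : Disjoint (A \ B) (B \ A) := by
      rw [Finset.disjoint_left]
      intro x hx hx'
      rw [mem_sdiff] at hx hx'
      exact hx.2 hx'.1
    rw [← Finset.prod_union hd]
    rfl
  rw [← h1, ← h2, h3, Finset.inter_comm B A]
  rw [mul_mul_mul_comm]

lemma ff_prod {s : ℕ → ℝ} {n : ℕ} (h : Squarefree n) : ff s n = ∏ p ∈ n.primeFactors, s p := by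
  unfold ff
  rw [if_pos h]

/-- the set of the primes which divide an odd number of the four integers -/
def SS (a b c d : ℕ) : Finset ℕ :=
  symmDiff (symmDiff a.primeFactors b.primeFactors) (symmDiff c.primeFactors d.primeFactors)

lemma four (s : ℕ → ℝ) (hs : ∀ n, s n = 1 ∨ s n = -1) (a b c d : ℕ) (ha : Squarefree a)
    (hb : Squarefree b) (hc : Squarefree c) (hd : Squarefree d) :
    ff s a * ff s b * (ff s c * ff s d) = ∏ p ∈ SS a b c d, s p := by
  have h1 : ∀ A : Finset ℕ, (∏ p ∈ A, s p) * (∏ p ∈ A, s p) = 1 := by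
    intro A
    rw [← Finset.prod_mul_distrib]
    refine Finset.prod_eq_one fun p _ => ?_
    rcases hs p with h | h <;> rw [h] <;> norm_num
  rw [ff_prod ha, ff_prod hb, ff_prod hc, ff_prod hd, prod_sd s a.primeFactors, h1, one_mul,
    prod_sd s c.primeFactors, h1, one_mul, prod_sd s, h1, one_mul]
  rfl

lemma sq_of_empty (a b c d : ℕ) (ha : Squarefree a) (hb : Squarefree b) (hc : Squarefree c)
    (hd : Squarefree d) (h : SS a b c d = ∅) : IsSquare (a * b * (c * d)) := by
  have e1 := prod_sd (fun p : ℕ => p) a.primeFactors b.primeFactors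
  have e2 := prod_sd (fun p : ℕ => p) c.primeFactors d.primeFactors
  rw [Nat.prod_primeFactors_of_squarefree ha, Nat.prod_primeFactors_of_squarefree hb] at e1
  rw [Nat.prod_primeFactors_of_squarefree hc, Nat.prod_primeFactors_of_squarefree hd] at e2
  have e3 : symmDiff a.primeFactors b.primeFactors = symmDiff c.primeFactors d.primeFactors :=
    symmDiff_eq_bot.1 h
  rw [e3] at e1
  rw [e1, e2]
  exact ⟨(∏ p ∈ a.primeFactors ∩ b.primeFactors, p) * (∏ p ∈ c.primeFactors ∩ d.primeFactors, p) *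
    ∏ p ∈ symmDiff c.primeFactors d.primeFactors, p, by ring⟩

section

variable {Ω : Type} [MeasurableSpace Ω] {P : Measure Ω} [IsProbabilityMeasure P] {s : ℕ → Ω → ℝ}

lemma int_prod (hm : ∀ n, Measurable (s n)) (hs : ∀ n ω, s n ω = 1 ∨ s n ω = -1) (S : Finset ℕ) :
    Integrable (fun ω => ∏ p ∈ S, s p ω) P := by
  refine Integrable.of_bound (Finset.measurable_prod S fun p _ => hm p).aestronglyMeasurable 1 ?_
  refine Filter.Eventually.of_forall fun ω => ?_
  rw [norm_prod]
  refine le_of_eq (Finset.prod_eq_one fun p _ => ?_)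
  rcases hs p ω with h | h <;> rw [h] <;> norm_num

lemma E_prod (hm : ∀ n, Measurable (s n)) (hi : iIndepFun s P) (h0 : ∀ n, ∫ ω, s n ω ∂P = 0)
    (S : Finset ℕ) (hS : S ≠ ∅) : ∫ ω, ∏ p ∈ S, s p ω ∂P = 0 := by
  have hi' : iIndepFun (fun i : S => s (i : ℕ)) P := hi.precomp Subtype.val_injective
  have h1 := hi'.integral_fun_prod_eq_prod_integral (fun i => (hm i).aestronglyMeasurable)
  have h2 : ∀ ω, ∏ p ∈ S, s p ω = ∏ i : S, s (i : ℕ) ω := fun ω =>
    (Finset.prod_coe_sort S (fun p => s p ω)).symm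
  simp_rw [h2]
  rw [h1]
  obtain ⟨p, hp⟩ := Finset.nonempty_iff_ne_empty.2 hS
  exact Finset.prod_eq_zero (Finset.mem_univ (⟨p, hp⟩ : S)) (h0 p)

lemma E_four (hm : ∀ n, Measurable (s n)) (hi : iIndepFun s P)
    (hs : ∀ n ω, s n ω = 1 ∨ s n ω = -1) (h0 : ∀ n, ∫ ω, s n ω ∂P = 0) (a b c d : ℕ)
    (Q : Prop) [Decidable Q]
    (hQ : (Squarefree a ∧ Squarefree b ∧ Squarefree c ∧ Squarefree d) ∧
      IsSquare (a * b * (c * d)) → Q) :
    Integrable (fun ω => ff (fun n => s n ω) a * ff (fun n => s n ω) b *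
      (ff (fun n => s n ω) c * ff (fun n => s n ω) d)) P ∧
    ∫ ω, ff (fun n => s n ω) a * ff (fun n => s n ω) b *
      (ff (fun n => s n ω) c * ff (fun n => s n ω) d) ∂P ≤ if Q then 1 else 0 := by
  by_cases h : Squarefree a ∧ Squarefree b ∧ Squarefree c ∧ Squarefree d
  · obtain ⟨ha, hb, hc, hd⟩ := h
    have e : (fun ω => ff (fun n => s n ω) a * ff (fun n => s n ω) b *
      (ff (fun n => s n ω) c * ff (fun n => s n ω) d)) = fun ω => ∏ p ∈ SS a b c d, s p ω := by
      funext ω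
      exact four (fun n => s n ω) (fun n => hs n ω) a b c d ha hb hc hd
    rw [e]
    refine ⟨int_prod hm hs _, ?_⟩
    by_cases hS : SS a b c d = ∅
    · rw [if_pos (hQ ⟨⟨ha, hb, hc, hd⟩, sq_of_empty a b c d ha hb hc hd hS⟩), hS]
      simp
    · rw [E_prod hm hi h0 _ hS]
      split_ifs <;> norm_num
  · have e : (fun ω => ff (fun n => s n ω) a * ff (fun n => s n ω) b *
      (ff (fun n => s n ω) c * ff (fun n => s n ω) d)) = fun _ => 0 := by
      funext ω
      unfold ff
      by_cases ha : Squarefree a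
      · by_cases hb : Squarefree b
        · by_cases hc : Squarefree c
          · have hd : ¬ Squarefree d := fun hd => h ⟨ha, hb, hc, hd⟩
            rw [if_neg hd, mul_zero, mul_zero]
          · rw [if_neg hc, zero_mul, mul_zero]
        · rw [if_neg hb, mul_zero, zero_mul]
      · rw [if_neg ha, zero_mul, zero_mul]
    rw [e]
    refine ⟨integrable_zero _ _ _, ?_⟩
    rw [integral_zero]
    split_ifs <;> norm_num

end

/-- **MOM** -/
theorem t_MOM : S_MOM := by
  intro Ω _ P _ s hm hi hs h0 U1 U2 j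
  set T := Ioc (U1 + j) (U2 + j) ×ˢ Icc 1 j with hT
  have hE : ∀ t ∈ T, ∀ t' ∈ T, Integrable (fun ω => ff (fun n => s n ω) t.1 *
      ff (fun n => s n ω) (t.1 - t.2) *
      (ff (fun n => s n ω) t'.1 * ff (fun n => s n ω) (t'.1 - t'.2))) P ∧
    ∫ ω, ff (fun n => s n ω) t.1 * ff (fun n => s n ω) (t.1 - t.2) *
      (ff (fun n => s n ω) t'.1 * ff (fun n => s n ω) (t'.1 - t'.2)) ∂P ≤
      if (t, t') ∈ sol (U1 + j) (U2 + j) j then 1 else 0 := by
    intro t ht t' ht'
    refine E_four hm hi hs h0 _ _ _ _ _ ?_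
    intro h
    unfold sol
    rw [mem_filter, mem_product]
    exact ⟨⟨ht, ht'⟩, h⟩
  have e1 : ∀ ω, ZZ (ff fun n => s n ω) U1 U2 j ^ 2 = ∑ t ∈ T, ∑ t' ∈ T,
      ff (fun n => s n ω) t.1 * ff (fun n => s n ω) (t.1 - t.2) *
      (ff (fun n => s n ω) t'.1 * ff (fun n => s n ω) (t'.1 - t'.2)) := by
    intro ω
    rw [ZZ_eq, sq, Finset.sum_mul_sum]
  simp_rw [e1]
  rw [integral_finset_sum _ fun t ht => integrable_finset_sum _ fun t' ht' => (hE t ht t' ht').1]
  calc _ = ∑ t ∈ T, ∑ t' ∈ T, ∫ ω, ff (fun n => s n ω) t.1 * ff (fun n => s n ω) (t.1 - t.2) *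
      (ff (fun n => s n ω) t'.1 * ff (fun n => s n ω) (t'.1 - t'.2)) ∂P :=
        Finset.sum_congr rfl fun t ht => integral_finset_sum _ fun t' ht' => (hE t ht t' ht').1
    _ ≤ ∑ t ∈ T, ∑ t' ∈ T, (if (t, t') ∈ sol (U1 + j) (U2 + j) j then (1 : ℝ) else 0) :=
        Finset.sum_le_sum fun t ht => Finset.sum_le_sum fun t' ht' => (hE t ht t' ht').2
    _ = ((sol (U1 + j) (U2 + j) j).card : ℝ) := by
        rw [← Finset.sum_product' T T fun t t' =>
          if (t, t') ∈ sol (U1 + j) (U2 + j) j then (1 : ℝ) else 0]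
        have e6 : sol (U1 + j) (U2 + j) j ⊆ T ×ˢ T := by
          unfold sol
          exact Finset.filter_subset _ _
        simp only [Prod.mk.eta]
        rw [← Finset.sum_filter, Finset.filter_mem_eq_inter, Finset.inter_eq_right.mpr e6,
          Finset.sum_const, nsmul_eq_mul, mul_one]

end Pool.Agent.K1H38.RM
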